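import Pool.Agent.Helper63.Sey2.Goals

/-!
# Project SEY2, packet NUM (the parameters)
-/

namespace Pool.Agent.Helper85.Sey2

open Pool.Agent.Helper63.Sey2

lemma num_pow (l : ℕ) (hl : 32 ≤ l) : 96 * l ^ 4 ≤ 2 ^ l := by
  induction l, hl using Nat.le_induction with
  | base => norm_num
  | succ n hn ih =>
    have h1 : (n + 1) ^ 4 ≤ 2 * n ^ 4 := by
      obtain ⟨a, rfl⟩ := Nat.exists_eq_add_of_le hn
      have : 2 * (32 + a) ^ 4 = (32 + a + 1) ^ 4 + (911231 + 118396 * a + 5754 * a ^ 2 +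
          124 * a ^ 3 + a ^ 4) := by
        ring
      omega
    calc 96 * (n + 1) ^ 4 ≤ 96 * (2 * n ^ 4) := Nat.mul_le_mul_left _ h1
      _ = 2 * (96 * n ^ 4) := by ring
      _ ≤ 2 * 2 ^ n := Nat.mul_le_mul_left _ ih
      _ = 2 ^ (n + 1) := by ring

/-- the size of `M` -/
lemma num_M (K k M : ℕ) (hK : 1 ≤ K) (hk : 1 ≤ k)
    (hM : M = 256 * 4 ^ (4 * (2 * K)) * (k + 1) ^ (4 * (4 * (2 * K)) ^ 2)) :
    64 * K * M ≤ (2 * k) ^ (287 * K ^ 2) := by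
  have h2 : 2 ≤ 2 * k := by omega
  have e1 : (4 : ℕ) ^ (4 * (2 * K)) = 2 ^ (16 * K) := by
    rw [show (4 : ℕ) = 2 ^ 2 by norm_num, ← pow_mul]
    congr 1
    ring
  have e2 : (k + 1) ^ (4 * (4 * (2 * K)) ^ 2) ≤ (2 * k) ^ (256 * K ^ 2) := by
    have : 4 * (4 * (2 * K)) ^ 2 = 256 * K ^ 2 := by ring
    rw [this]
    exact Nat.pow_le_pow_left (by omega) _
  have e3 : K ≤ 2 ^ K := Nat.lt_two_pow_self.le
  have e4 : ∀ n : ℕ, 2 ^ n ≤ (2 * k) ^ n := fun n => Nat.pow_le_pow_left h2 n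
  calc 64 * K * M = 2 ^ 14 * K * 2 ^ (16 * K) * (k + 1) ^ (4 * (4 * (2 * K)) ^ 2) := by
        rw [hM, e1]; ring
    _ ≤ (2 * k) ^ 14 * (2 * k) ^ K * (2 * k) ^ (16 * K) * (2 * k) ^ (256 * K ^ 2) := by
        apply Nat.mul_le_mul _ e2
        apply Nat.mul_le_mul _ (e4 _)
        exact Nat.mul_le_mul (e4 _) (e3.trans (e4 _))
    _ = (2 * k) ^ (14 + K + 16 * K + 256 * K ^ 2) := by
        rw [pow_add, pow_add, pow_add]
    _ ≤ (2 * k) ^ (287 * K ^ 2) := by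
        apply Nat.pow_le_pow_right (by omega)
        nlinarith

theorem goalNUM : GoalNUM := by
  intro K hK
  refine ⟨1148 * K ^ 2, ?_, ?_⟩
  · have : 1 ≤ K ^ 2 := Nat.one_le_pow _ _ hK
    omega
  intro k D hk hD
  obtain ⟨M, hM⟩ : ∃ M, M = 256 * 4 ^ (4 * (2 * K)) * (k + 1) ^ (4 * (4 * (2 * K)) ^ 2) :=
    ⟨_, rfl⟩
  have hMle := num_M K k M hK hk hM
  have hM1 : 1 ≤ M := by
    rw [hM]
    exact Nat.pos_of_ne_zero (by positivity)
  have hK2 : 1 ≤ K ^ 2 := Nat.one_le_pow _ _ hK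
  -- the lower bounds for D
  have hD0 : (2 * k) ^ (1148 * K ^ 2) ≤ D := by
    refine le_trans (Nat.pow_le_pow_left ?_ _) hD
    exact Nat.mul_le_mul_right _ (by omega)
  have hD1 : (64 * K * M) ^ 4 ≤ D := by
    calc (64 * K * M) ^ 4 ≤ ((2 * k) ^ (287 * K ^ 2)) ^ 4 := Nat.pow_le_pow_left hMle _
      _ = (2 * k) ^ (1148 * K ^ 2) := by
          rw [← pow_mul]
          congr 1
          ring
      _ ≤ D := hD0
  have hD2 : (k + 1) ^ 256 ≤ D := by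
    calc (k + 1) ^ 256 ≤ (2 * k) ^ 256 := Nat.pow_le_pow_left (by omega) _
      _ ≤ (2 * k) ^ (1148 * K ^ 2) := Nat.pow_le_pow_right (by omega) (by omega)
      _ ≤ D := hD0
  have hD3 : 2 ^ 100 ≤ D := by
    calc 2 ^ 100 ≤ (2 * k) ^ 100 := Nat.pow_le_pow_left (by omega) _
      _ ≤ (2 * k) ^ (1148 * K ^ 2) := Nat.pow_le_pow_right (by omega) (by omega)
      _ ≤ D := hD0
  have hDpos : 1 ≤ D := le_trans (by norm_num) hD3
  have hD4 : 64 * K * M ≤ D := by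
    refine le_trans ?_ hD1
    exact Nat.le_self_pow (by norm_num) _
  -- q
  obtain ⟨q, hq⟩ : ∃ q, q = D / K := ⟨_, rfl⟩
  have hq1 : K * q ≤ D := by rw [hq]; exact Nat.mul_div_le _ _
  have hq64 : 64 * M ≤ q := by
    rw [hq, Nat.le_div_iff_mul_le (by omega)]
    calc 64 * M * K = 64 * K * M := by ring
      _ ≤ D := hD4
  have hqpos : 1 ≤ q := by omega
  have hq2 : D ≤ 2 * K * q := by
    have h1 : D < K * (q + 1) := by
      rw [hq]
      exact Nat.lt_mul_div_succ _ (by omega)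
    nlinarith
  have hqD : q ≤ D := by nlinarith
  -- l
  obtain ⟨l, hl⟩ : ∃ l, l = q / (16 * M) := ⟨_, rfl⟩
  have hl1 : 16 * M * l ≤ q := by rw [hl]; exact Nat.mul_div_le _ _
  have hlpos : 1 ≤ l := by
    rw [hl, Nat.le_div_iff_mul_le (by omega)]
    omega
  have hl2 : q ≤ 32 * M * l := by
    have h1 : q < 16 * M * (l + 1) := by
      rw [hl]
      exact Nat.lt_mul_div_succ _ (by omega)
    nlinarith
  have hl3 : D ≤ 64 * K * M * l := by
    calc D ≤ 2 * K * q := hq2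
      _ ≤ 2 * K * (32 * M * l) := Nat.mul_le_mul_left _ hl2
      _ = 64 * K * M * l := by ring
  have hl4 : D ^ 3 ≤ l ^ 4 := by
    have h1 : D * D ^ 3 ≤ D * l ^ 4 := by
      calc D * D ^ 3 = D ^ 4 := by ring
        _ ≤ (64 * K * M * l) ^ 4 := Nat.pow_le_pow_left hl3 _
        _ = (64 * K * M) ^ 4 * l ^ 4 := by rw [mul_pow]
        _ ≤ D * l ^ 4 := Nat.mul_le_mul_right _ hD1
    exact Nat.le_of_mul_le_mul_left h1 hDpos
  have hl32 : 32 ≤ l := by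
    by_contra hcon
    have h1 : l ≤ 32 := by omega
    have h2 : l ^ 4 ≤ 32 ^ 4 := Nat.pow_le_pow_left h1 _
    have h3 : (2 ^ 100) ^ 3 ≤ D ^ 3 := Nat.pow_le_pow_left hD3 _
    have h4 : (2 ^ 100) ^ 3 ≤ 32 ^ 4 := h3.trans (hl4.trans h2)
    norm_num at h4
  have hlq : l ≤ q := by nlinarith
  have h96 : 96 * D ^ 3 ≤ 2 ^ l := (Nat.mul_le_mul_left _ hl4).trans (num_pow l hl32)
  have hD13 : (D + 1) ^ 3 ≤ 8 * D ^ 3 := by
    calc (D + 1) ^ 3 ≤ (2 * D) ^ 3 := Nat.pow_le_pow_left (by omega) _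
      _ = 8 * D ^ 3 := by ring
  have h12 : 12 * (D + 1) ^ 3 ≤ 2 ^ l := by
    calc 12 * (D + 1) ^ 3 ≤ 12 * (8 * D ^ 3) := Nat.mul_le_mul_left _ hD13
      _ = 96 * D ^ 3 := by ring
      _ ≤ 2 ^ l := h96
  refine ⟨q, M, l, 12 * q * (D + 1) ^ 3, 16, hq1, hq2, hM, hl1, by omega, ?_, ?_, ?_⟩
  · exact Nat.pos_of_ne_zero (by positivity)
  · calc 12 * q * (D + 1) ^ 3 * (k + 1) ^ (16 * 16) * 16 ^ 16
          ≤ 12 * D * (8 * D ^ 3) * D * 16 ^ 16 := by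
          apply Nat.mul_le_mul_right
          apply Nat.mul_le_mul _ hD2
          exact Nat.mul_le_mul (Nat.mul_le_mul_left _ hqD) hD13
      _ = (96 * 16 ^ 16) * D ^ 5 := by ring
      _ ≤ D * D ^ 5 := Nat.mul_le_mul_right _ (le_trans (by norm_num) hD3)
      _ = D ^ 6 := by ring
      _ ≤ D ^ 12 := Nat.pow_le_pow_right hDpos (by norm_num)
      _ = (D ^ 3) ^ 4 := by ring
      _ ≤ (l ^ 4) ^ 4 := Nat.pow_le_pow_left hl4 _
      _ = l ^ 16 := by ring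
  · have hX : (0 : ℝ) < ((D : ℝ) + 1) ^ 3 := by positivity
    have h12R : 12 * ((D : ℝ) + 1) ^ 3 ≤ 2 ^ l := by exact_mod_cast h12
    have t1 : (1 / 2 : ℝ) ^ q * ((D : ℝ) + 1) ^ 3 ≤ 1 / 12 := by
      have h1 : (2 : ℝ) ^ l ≤ 2 ^ q := pow_le_pow_right₀ (by norm_num) hlq
      have h2 : (0 : ℝ) < 2 ^ q := by positivity
      rw [one_div, inv_pow, inv_mul_le_iff₀ h2]
      linarith
    have t2 : Real.exp (-((q : ℝ) / (16 * M))) * ((D : ℝ) + 1) ^ 3 ≤ 1 / 12 := by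
      have h1 : (l : ℝ) ≤ (q : ℝ) / (16 * M) := by
        rw [le_div_iff₀ (by positivity)]
        have : ((16 * M * l : ℕ) : ℝ) ≤ q := by exact_mod_cast hl1
        push_cast at this
        linarith
      have h2 : (2 : ℝ) ^ l ≤ Real.exp l := by
        rw [← Real.exp_one_pow]
        apply pow_le_pow_left₀ (by norm_num)
        have := Real.add_one_le_exp (1 : ℝ)
        linarith
      have h3 : Real.exp l ≤ Real.exp ((q : ℝ) / (16 * M)) := Real.exp_le_exp.mpr h1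
      have h4 := Real.exp_pos ((q : ℝ) / (16 * M))
      rw [Real.exp_neg, inv_mul_le_iff₀ h4]
      linarith
    have t3 : (q : ℝ) / ((12 * q * (D + 1) ^ 3 : ℕ) : ℝ) * ((D : ℝ) + 1) ^ 3 ≤ 1 / 12 := by
      have hq0 : (0 : ℝ) < q := by exact_mod_cast hqpos
      push_cast
      apply le_of_eq
      field_simp
    nlinarith
end Pool.Agent.Helper85.Sey2
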